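import Pool.Agent.MP_f38670_al.Final1
import Pool.Agent.MP_f38670_al.ExistsK
import Pool.Agent.MP_f38670_al.LieAlg

set_option autoImplicit false

/-!
# MP_f38670_al: the example is simple and locally finite-dimensional
-/

namespace Pool.Agent.Results.MP_f38670_al.SimpleLocallyFinite

open Finset MvPolynomial Pool.Agent.MP_f38670_al

/-- If all proper subalgebras of an infinite-dimensional Lie algebra are finite-dimensional, then every
proper ideal is central. -/
theorem ideal_central {k L : Type*} [Field k] [LieRing L] [LieAlgebra k L]
    (hinf : ¬ FiniteDimensional k L)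
    (hsub : ∀ H : LieSubalgebra k L, H ≠ ⊤ → FiniteDimensional k H)
    (I : LieIdeal k L) (hI : I ≠ ⊤) : ∀ z ∈ I, ∀ x : L, ⁅x, z⁆ = 0 := by
  have hfd : FiniteDimensional k I.toSubmodule := by
    have h1 : FiniteDimensional k (I.toLieSubalgebra k L : LieSubalgebra k L) := by
      apply hsub
      intro h
      apply hI
      rw [eq_top_iff]
      intro z _
      have hz : z ∈ (I.toLieSubalgebra k L : LieSubalgebra k L) := by
        rw [h]
        exact LieSubalgebra.mem_top z
      exact hz
    exact h1
  -- the bracket with `I`
  let f : L →ₗ[k] (I.toSubmodule →ₗ[k] I.toSubmodule) :=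
    { toFun := fun x =>
        { toFun := fun z => ⟨⁅x, (z : L)⁆, I.lie_mem z.2⟩
          map_add' := by
            intro a b
            apply Subtype.ext
            simp
          map_smul' := by
            intro c a
            apply Subtype.ext
            simp }
      map_add' := by
        intro a b
        ext z
        simp
      map_smul' := by
        intro c a
        ext z
        simp }
  have hf : ∀ (x : L) (z : I.toSubmodule), ((f x z : I.toSubmodule) : L) = ⁅x, (z : L)⁆ :=
    fun _ _ => rfl
  let C : LieSubalgebra k L :=
    { LinearMap.ker f with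
      lie_mem' := by
        intro a b ha hb
        have ha' : f a = 0 := ha
        have hb' : f b = 0 := hb
        show f ⁅a, b⁆ = 0
        ext z
        have h1 : ⁅a, (z : L)⁆ = 0 := by rw [← hf, ha']; rfl
        have h2 : ⁅b, (z : L)⁆ = 0 := by rw [← hf, hb']; rfl
        rw [hf, lie_lie, h1, h2]
        simp }
  have hC : C = ⊤ := by
    by_contra hne
    have h1 : FiniteDimensional k C := hsub C hne
    have h2 : FiniteDimensional k (LinearMap.ker f) := h1
    apply hinf
    have h3 : FiniteDimensional k (LinearMap.range f) := inferInstance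
    have h4 : Module.Finite k (L ⧸ LinearMap.ker f) :=
      Module.Finite.equiv f.quotKerEquivRange.symm
    exact Module.Finite.of_submodule_quotient (LinearMap.ker f)
  intro z hz x
  have hx : x ∈ C := by
    rw [hC]
    exact LieSubalgebra.mem_top x
  have hx' : f x = 0 := hx
  have := hf x ⟨z, hz⟩
  rw [hx'] at this
  exact this.symm

/-- Let `K` be the field of rational functions over `𝔽₂` in countably many variables. There is an
infinite-dimensional simple Lie algebra `L` over `K` all of whose proper subalgebras are
finite-dimensional and in which every finite set generates a finite-dimensional subalgebra. -/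
theorem result :
    ∃ (L : Type) (_ : LieRing L)
      (_ : LieAlgebra (FractionRing (MvPolynomial (ℕ ⊕ (ℕ × Finset ℕ)) (ZMod 2))) L),
      ¬ FiniteDimensional (FractionRing (MvPolynomial (ℕ ⊕ (ℕ × Finset ℕ)) (ZMod 2))) L ∧
      (∀ H : LieSubalgebra (FractionRing (MvPolynomial (ℕ ⊕ (ℕ × Finset ℕ)) (ZMod 2))) L, H ≠ ⊤ →
        FiniteDimensional (FractionRing (MvPolynomial (ℕ ⊕ (ℕ × Finset ℕ)) (ZMod 2))) H) ∧
      LieAlgebra.IsSimple (FractionRing (MvPolynomial (ℕ ⊕ (ℕ × Finset ℕ)) (ZMod 2))) L ∧
      ∀ s : Finset L,
        FiniteDimensional (FractionRing (MvPolynomial (ℕ ⊕ (ℕ × Finset ℕ)) (ZMod 2)))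
          (LieSubalgebra.lieSpan (FractionRing (MvPolynomial (ℕ ⊕ (ℕ × Finset ℕ)) (ZMod 2))) L
            (s : Set L)) := by
  obtain ⟨K, _, _, y, hy, hsp⟩ := exists_K
  have hch := charP_K K
  obtain ⟨D, hD⟩ := exists_deriv y tk hy (Y_li y hy) hsp (vv y)
  have hfin : ∀ (W : Submodule BaseK (LD D)), (∃ n, ∀ x ∈ W, LD.incl D x ∈ Em y hy n) →
      FiniteDimensional BaseK W := by
    rintro W ⟨n, hn⟩
    let f : W →ₗ[BaseK] Em y hy n :=
      { toFun := fun x => ⟨LD.incl D x.1, hn x.1 x.2⟩
        map_add' := by
          intro a b
          apply Subtype.ext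
          exact map_add (LD.incl D) _ _
        map_smul' := by
          intro c a
          apply Subtype.ext
          exact map_smul (LD.incl D) _ _ }
    apply FiniteDimensional.of_injective f
    intro a b hab
    apply Subtype.ext
    apply LD.incl_injective D
    exact congrArg (fun z : Em y hy n => (z : K)) hab
  have hlev := exists_level y hy hsp
  choose N hN using hlev
  classical
  have hinf : ¬ FiniteDimensional BaseK (LD D) := by
    intro hfd
    obtain ⟨s, hs⟩ := (Module.finite_def.1 hfd)
    set n := s.sup (fun x => N (LD.incl D x)) with hn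
    have hall : ∀ x : LD D, LD.incl D x ∈ Em y hy n := by
      intro x
      have hx : x ∈ Submodule.span BaseK (s : Set (LD D)) := by rw [hs]; trivial
      refine Submodule.span_induction (p := fun x _ => LD.incl D x ∈ Em y hy n) ?_ ?_ ?_ ?_ hx
      · intro z hz
        refine Em_mono y hy ?_ (hN _)
        exact Finset.le_sup (f := fun x => N (LD.incl D x)) hz
      · rw [map_zero]; exact zero_mem _
      · intro a b _ _ ha hb
        rw [map_add]; exact add_mem ha hb
      · intro c a _ ha
        rw [map_smul]; exact (Em y hy n).smul_mem ha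
    have h1 := hall (LD.mk D (y n))
    rw [LD.incl_mk, D_y y D hD n] at h1
    apply y_notMem_Em y hy n
    have h2 : y n = (vv y n)⁻¹ * (vv y n * y n) := by
      have := vv_ne_zero y hy n
      field_simp
    rw [h2]
    exact mul_mem (inv_mem (vv_mem_Em y hy n n le_rfl)) h1
  have hsub : ∀ H : LieSubalgebra BaseK (LD D), H ≠ ⊤ → FiniteDimensional BaseK H := by
    intro H hH
    by_contra hnf
    apply hH
    let HK : Submodule BaseK K := H.toSubmodule.map (LD.incl D)
    have hmain := sub_main y hy hsp D hD HK
      (by
        rintro _ ⟨a, ha, rfl⟩ _ ⟨b, hb, rfl⟩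
        exact ⟨⁅a, b⁆, H.lie_mem ha hb, LD.incl_lie D a b⟩)
      (by
        intro n
        by_contra hcon
        push Not at hcon
        apply hnf
        exact hfin H.toSubmodule ⟨n, fun x hx => hcon _ ⟨x, hx, rfl⟩⟩)
    rw [eq_top_iff]
    intro z _
    obtain ⟨x, rfl⟩ := LD.exists_mk D z
    obtain ⟨w, hw, hwx⟩ := hmain x
    have : w = LD.mk D x := LD.incl_injective D (by rw [hwx, LD.incl_mk])
    rw [← this]
    exact hw
  have hsimple : LieAlgebra.IsSimple BaseK (LD D) := by
    have hcen : ∀ z : LD D, (∀ x : LD D, ⁅x, z⁆ = 0) → z = 0 := by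
      intro z hz
      by_contra hz0
      have hzK : LD.incl D z ≠ 0 := by
        intro h
        apply hz0
        apply LD.incl_injective D
        rw [h, map_zero]
      have hc : ∀ x : LD D, ∃ c : BaseK, algebraMap BaseK K c = LD.incl D x * LD.incl D z := by
        intro x
        have h1 : D (LD.incl D x * LD.incl D z) = 0 := by
          rw [← LD.incl_lie, hz x, map_zero]
        exact consts y hy D hD (N (LD.incl D x * LD.incl D z)) _ (hN _) h1
      apply hinf
      let g : LD D →ₗ[BaseK] K :=
        { toFun := fun x => LD.incl D x * LD.incl D z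
          map_add' := by
            intro a b
            rw [map_add, add_mul]
          map_smul' := by
            intro c a
            rw [map_smul, smul_mul_assoc]
            rfl }
      have hg : ∀ x, g x ∈ Submodule.span BaseK ({1} : Set K) := by
        intro x
        obtain ⟨c, hcx⟩ := hc x
        have : g x = c • (1 : K) := by
          rw [Algebra.smul_def, mul_one, hcx]
          rfl
        rw [this]
        exact Submodule.smul_mem _ _ (Submodule.mem_span_singleton_self 1)
      have hfs : FiniteDimensional BaseK (Submodule.span BaseK ({1} : Set K)) :=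
        FiniteDimensional.span_of_finite BaseK (Set.finite_singleton 1)
      apply FiniteDimensional.of_injective (g.codRestrict _ hg)
      intro a b hab
      have h1 : g a = g b := congrArg Subtype.val hab
      have h2 : LD.incl D a * LD.incl D z = LD.incl D b * LD.incl D z := h1
      exact LD.incl_injective D (mul_right_cancel₀ hzK h2)
    constructor
    · intro I
      by_cases hI : I = ⊤
      · exact Or.inr hI
      · left
        rw [LieSubmodule.eq_bot_iff]
        intro z hz
        exact hcen z (fun x => ideal_central hinf hsub I hI z hz x)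
    · intro hab
      apply hinf
      have : ∀ z : LD D, z = 0 := fun z => hcen z (fun x => hab.trivial x z)
      have hs : Subsingleton (LD D) := ⟨fun a b => by rw [this a, this b]⟩
      infer_instance
  refine ⟨LD D, inferInstance, inferInstance, hinf, hsub, hsimple, ?_⟩
  intro s
  set n := s.sup (fun x => N (LD.incl D x)) with hn
  let M : LieSubalgebra BaseK (LD D) :=
    { carrier := {x | LD.incl D x ∈ Em y hy n}
      add_mem' := by
        intro a b ha hb
        show LD.incl D (a + b) ∈ Em y hy n
        rw [map_add]
        exact add_mem ha hb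
      zero_mem' := by
        show LD.incl D 0 ∈ Em y hy n
        rw [map_zero]
        exact zero_mem _
      smul_mem' := by
        intro c a ha
        show LD.incl D (c • a) ∈ Em y hy n
        rw [map_smul]
        exact (Em y hy n).smul_mem ha
      lie_mem' := by
        intro a b ha hb
        show LD.incl D ⁅a, b⁆ ∈ Em y hy n
        rw [LD.incl_lie]
        exact D_mem_Em y hy D hD n _ (mul_mem ha hb) }
  have hM : FiniteDimensional BaseK M.toSubmodule := hfin _ ⟨n, fun x hx => hx⟩
  have hle : LieSubalgebra.lieSpan BaseK (LD D) (s : Set (LD D)) ≤ M := by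
    rw [LieSubalgebra.lieSpan_le]
    intro z hz
    show LD.incl D z ∈ Em y hy n
    refine Em_mono y hy ?_ (hN _)
    exact Finset.le_sup (f := fun x => N (LD.incl D x)) hz
  exact Submodule.finiteDimensional_of_le
    (S₁ := (LieSubalgebra.lieSpan BaseK (LD D) (s : Set (LD D))).toSubmodule)
    (S₂ := M.toSubmodule) hle

end Pool.Agent.Results.MP_f38670_al.SimpleLocallyFinite
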